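import Pool.Agent.E8helper19.LC.Stm3
import Pool.Agent.E8helper67.LC.D1
import Pool.Agent.E8helper57.LC.D3

/-! LC31: bounds for the kernel `D` with constants independent of `k`. -/

set_option autoImplicit false
open MeasureTheory Filter Topology Set
open scoped ContDiff Real

namespace Pool.Agent.E8helper38.LC

open Pool.Agent.E8helper19.LC
open Pool.Agent.E8helper67.LC

noncomputable section

theorem t_U1 (h : S_CHORD) (h2 : S_TAY) (h3 : S_G) : S_U1 := by
  have h4 : S_D3 := Pool.Agent.E8helper57.LC.t_D3 h h2 h3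
  intro γ L hγ hne
  obtain ⟨c, hc, hc1, hch⟩ := h γ L hγ hne
  obtain ⟨C0, hC0, hT1, hT2, -, -, -⟩ := h2 γ L hγ
  obtain ⟨hG1, -, hG3, -, -, H, Q, hHm, -, hH0, hHanti, hHle, -, hHi, -, -⟩ := h3
  have hL := hγ.pos
  set M3 : ℝ := ∫ x in Ioi (0 : ℝ), x ^ 3 * H x with hM3
  set M4 : ℝ := ∫ x in Ioi (0 : ℝ), x ^ 4 * H x with hM4
  set M5 : ℝ := ∫ x in Ioi (0 : ℝ), x ^ 5 * H x with hM5
  set M6 : ℝ := ∫ x in Ioi (0 : ℝ), x ^ 6 * H x with hM6
  set M7 : ℝ := ∫ x in Ioi (0 : ℝ), x ^ 7 * H x with hM7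
  have hM : ∀ i : ℕ, 0 ≤ ∫ x in Ioi (0 : ℝ), x ^ i * H x := by
    intro i
    refine setIntegral_nonneg measurableSet_Ioi fun x hx => ?_
    have := (hH0 x hx).1
    have hx' : 0 < x := hx
    positivity
  have hM3' : 0 ≤ M3 := hM 3
  have hM4' : 0 ≤ M4 := hM 4
  have hM5' : 0 ≤ M5 := hM 5
  have hM6' : 0 ≤ M6 := hM 6
  have hM7' : 0 ≤ M7 := hM 7
  refine ⟨2 * C0 * M3 * (64 / c ^ 4) + 4 * C0 * (L * M3 * (64 / c ^ 4) +
    M4 * (256 / c ^ 5)) + 4 * C0 * (L * M5 * (1024 / c ^ 6) + M6 * (4096 / c ^ 7)) +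
    4 * C0 * (L * M6 * (4096 / c ^ 7) + M7 * (16384 / c ^ 8)) + 1, by positivity, ?_⟩
  intro k hk
  refine ⟨4 * k + 1, by linarith, ?_⟩
  intro α hα
  set μ : ℝ := mu α k with hμ
  have hα1 : 1 ≤ α := by linarith
  have hα0 : 0 < α := by linarith
  have hμ4 : α / 4 ≤ μ := mu_ge hk hα
  have hμ0 : 0 < μ := by linarith
  obtain ⟨hD0, -, hDi, hDs, -, -⟩ := h4 γ L k α hγ hne hk (by linarith)
  set β : ℝ := μ * c with hβ
  have hβ0 : 0 < β := by positivity
  set K : ℝ := α * μ * C0 with hK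
  have hK0 : 0 ≤ K := by positivity
  -- the pointwise bound
  have hle : ∀ s t, Dk α k γ s t ≤ Ph K β H (s - t) := by
    intro s t
    rcases eq_or_ne s t with rfl | hst
    · unfold Dk Ph
      simp
    · have hr : 0 < |s - t| := abs_pos.2 (sub_ne_zero.2 hst)
      have hρ : 0 < ‖γ s - γ t‖ := lt_of_lt_of_le (by positivity) (hch s t)
      unfold Dk Ph
      rw [← hμ, (hG1 μ _ hμ0 hρ).2, (hG1 μ _ hμ0 hr).2]
      have h5 := hHle (μ * ‖γ s - γ t‖) (μ * |s - t|) (by positivity)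
        (mul_le_mul_of_nonneg_left (hT1 s t) hμ0.le)
      have h6 := (hHanti (β * |s - t|) (μ * ‖γ s - γ t‖) (by positivity) (by
        rw [hβ, mul_assoc]
        exact mul_le_mul_of_nonneg_left (hch s t) hμ0.le)).1
      have h7 := hT2 s t
      have h8 := (hH0 (β * |s - t|) (by positivity)).1
      have h9 : 0 ≤ μ * |s - t| - μ * ‖γ s - γ t‖ := by
        have := mul_le_mul_of_nonneg_left (hT1 s t) hμ0.le
        linarith
      calc α * (Gk 1 (μ * ‖γ s - γ t‖) - Gk 1 (μ * |s - t|))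
          ≤ α * ((μ * |s - t| - μ * ‖γ s - γ t‖) * H (β * |s - t|)) := by
            apply mul_le_mul_of_nonneg_left _ hα0.le
            exact h5.trans (mul_le_mul_of_nonneg_left h6 h9)
        _ ≤ α * ((μ * (C0 * |s - t| ^ 3)) * H (β * |s - t|)) := by
            apply mul_le_mul_of_nonneg_left _ hα0.le
            apply mul_le_mul_of_nonneg_right _ h8
            rw [← mul_sub]
            exact mul_le_mul_of_nonneg_left h7 hμ0.le
        _ = K * (|s - t| ^ 3 * H (β * |s - t|)) := by rw [hK]; ring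
  have hi3 := hHi 3 (by norm_num)
  have hi4 := hHi 4 (by norm_num)
  have hi5 := hHi 5 (by norm_num)
  have hi6 := hHi 6 (by norm_num)
  have hi7 := hHi 7 (by norm_num)
  -- the shear
  set T : ℝ × ℝ → ℝ × ℝ := fun z => (z.1, -z.1 + z.2) with hTdef
  have hTm : MeasurePreserving T volume volume := measurePreserving_prod_neg_add volume volume
  have hPsT : ∀ (j : ℕ) (z : ℝ × ℝ), Dk α k γ z.1 z.2 * |z.1 - z.2| ^ j ≤ Ps K β L H j (T z) := by
    intro j z
    have e : |(T z).2| = |z.1 - z.2| := by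
      change |-z.1 + z.2| = |z.1 - z.2|
      rw [← abs_neg]
      congr 1
      ring
    have e1 : (T z).1 = z.1 := rfl
    unfold Ps
    rw [e, e1]
    split_ifs with h5
    · apply mul_le_mul_of_nonneg_right _ (by positivity)
      refine (hle z.1 z.2).trans (le_of_eq ?_)
      unfold Ph
      rw [e]
    · rw [Dk_zero hγ α k (not_le.1 h5), zero_mul]
  have hint : ∀ j : ℕ, IntegrableOn (fun x => x ^ (j + 3) * H x) (Ioi 0) →
      IntegrableOn (fun x => x ^ (j + 4) * H x) (Ioi 0) →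
      Integrable (fun z : ℝ × ℝ => Dk α k γ z.1 z.2 * |z.1 - z.2| ^ j) ∧
      ∫ z : ℝ × ℝ, Dk α k γ z.1 z.2 * |z.1 - z.2| ^ j ≤
        4 * K * (L * ((∫ x in Ioi (0 : ℝ), x ^ (j + 3) * H x) / β ^ (j + 4)) +
        (∫ x in Ioi (0 : ℝ), x ^ (j + 4) * H x) / β ^ (j + 5)) := by
    intro j hj3 hj4
    obtain ⟨hP1, hP2⟩ := Ps_int K L hK0 hL hβ0 hHm (fun x hx => (hH0 x hx).1) j hj3 hj4
    have hP3 : Integrable (fun z => Ps K β L H j (T z)) := hTm.integrable_comp_of_integrable hP1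
    have hP4 : ∫ z, Ps K β L H j (T z) = ∫ w, Ps K β L H j w := by
      have := integral_map (μ := (volume : Measure (ℝ × ℝ))) hTm.measurable.aemeasurable
        (f := Ps K β L H j) (Ps_meas K β L hHm j).aestronglyMeasurable
      rw [hTm.map_eq] at this
      exact this.symm
    have hI : Integrable (fun z : ℝ × ℝ => Dk α k γ z.1 z.2 * |z.1 - z.2| ^ j) := by
      refine hP3.mono' ?_ (Eventually.of_forall fun z => ?_)
      · apply hDi.aestronglyMeasurable.mul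
        exact (by fun_prop : Continuous fun z : ℝ × ℝ => |z.1 - z.2| ^ j).aestronglyMeasurable
      · rw [Real.norm_of_nonneg (mul_nonneg (hD0 _ _) (by positivity))]
        exact hPsT j z
    refine ⟨hI, ?_⟩
    rw [← hP2, ← hP4]
    exact integral_mono hI hP3 (hPsT j)
  have hA : 0 ≤ 2 * C0 * M3 * (64 / c ^ 4) := by positivity
  have hB : 0 ≤ 4 * C0 * (L * M3 * (64 / c ^ 4) + M4 * (256 / c ^ 5)) := by positivity
  have hC2 : 0 ≤ 4 * C0 * (L * M5 * (1024 / c ^ 6) + M6 * (4096 / c ^ 7)) := by positivity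
  have hC3 : 0 ≤ 4 * C0 * (L * M6 * (4096 / c ^ 7) + M7 * (16384 / c ^ 8)) := by positivity
  have f3 := fac hα1 hμ4 hc 2
  have f4 := fac' hα1 hμ4 hc 2
  have g6 := fac hα1 hμ4 hc 4
  have g7 := fac' hα1 hμ4 hc 4
  have u7 := fac hα1 hμ4 hc 5
  have u8 := fac' hα1 hμ4 hc 5
  norm_num only [Nat.reduceAdd] at f3 f4 g6 g7 u7 u8
  refine ⟨fun s => ?_, ?_, ?_, ?_, ?_, ?_⟩
  · have h5 : ∫ t, Dk α k γ s t ≤ ∫ t, Ph K β H (s - t) :=
      integral_mono (hDs s) ((Ph_int K hβ0 hi3).comp_sub_left s) (hle s)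
    have h6 : ∫ t, Ph K β H (s - t) = ∫ r, Ph K β H r :=
      integral_sub_left_eq_self (Ph K β H) volume s
    rw [h6, Ph_integral K hβ0] at h5
    refine h5.trans ?_
    have h7 : 2 * K * M3 / β ^ 4 = 2 * C0 * M3 * (α * μ / (μ * c) ^ 4) := by
      rw [hK, hβ]; ring
    rw [← hM3, h7]
    have h8 := mul_le_mul_of_nonneg_left f3 (by positivity : 0 ≤ 2 * C0 * M3)
    refine h8.trans ?_
    rw [← mul_div_assoc]
    apply div_le_div_of_nonneg_right _ (by positivity)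
    linarith
  · obtain ⟨-, h5⟩ := hint 0 (by simpa using hi3) (by simpa using hi4)
    simp only [pow_zero, mul_one, zero_add] at h5
    refine h5.trans ?_
    rw [← hM3, ← hM4]
    have h7 : 4 * K * (L * (M3 / β ^ 4) + M4 / β ^ 5) =
        4 * C0 * L * M3 * (α * μ / (μ * c) ^ 4) + 4 * C0 * M4 * (α * μ / (μ * c) ^ 5) := by
      rw [hK, hβ]; ring
    rw [h7]
    have h8 := mul_le_mul_of_nonneg_left f3 (by positivity : 0 ≤ 4 * C0 * L * M3)
    have h9 := mul_le_mul_of_nonneg_left f4 (by positivity : 0 ≤ 4 * C0 * M4)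
    refine (add_le_add h8 h9).trans ?_
    have e8 : 4 * C0 * L * M3 * (64 / c ^ 4 / α ^ 2) + 4 * C0 * M4 * (256 / c ^ 5 / α ^ 2) =
        (4 * C0 * (L * M3 * (64 / c ^ 4) + M4 * (256 / c ^ 5))) / α ^ 2 := by ring
    rw [e8]
    apply div_le_div_of_nonneg_right _ (by positivity)
    linarith
  · exact (hint 2 (by simpa using hi5) (by simpa using hi6)).1
  · obtain ⟨-, h5⟩ := hint 2 (by simpa using hi5) (by simpa using hi6)
    refine h5.trans ?_
    norm_num only [Nat.reduceAdd]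
    rw [← hM5, ← hM6]
    have h7 : 4 * K * (L * (M5 / β ^ 6) + M6 / β ^ 7) =
        4 * C0 * L * M5 * (α * μ / (μ * c) ^ 6) + 4 * C0 * M6 * (α * μ / (μ * c) ^ 7) := by
      rw [hK, hβ]; ring
    rw [h7]
    have h8 := mul_le_mul_of_nonneg_left g6 (by positivity : 0 ≤ 4 * C0 * L * M5)
    have h9 := mul_le_mul_of_nonneg_left g7 (by positivity : 0 ≤ 4 * C0 * M6)
    refine (add_le_add h8 h9).trans ?_
    have e8 : 4 * C0 * L * M5 * (1024 / c ^ 6 / α ^ 4) + 4 * C0 * M6 * (4096 / c ^ 7 / α ^ 4) =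
        (4 * C0 * (L * M5 * (1024 / c ^ 6) + M6 * (4096 / c ^ 7))) / α ^ 4 := by ring
    rw [e8]
    apply div_le_div_of_nonneg_right _ (by positivity)
    linarith
  · exact (hint 3 (by simpa using hi6) (by simpa using hi7)).1
  · obtain ⟨-, h5⟩ := hint 3 (by simpa using hi6) (by simpa using hi7)
    refine h5.trans ?_
    norm_num only [Nat.reduceAdd]
    rw [← hM6, ← hM7]
    have h7 : 4 * K * (L * (M6 / β ^ 7) + M7 / β ^ 8) =
        4 * C0 * L * M6 * (α * μ / (μ * c) ^ 7) + 4 * C0 * M7 * (α * μ / (μ * c) ^ 8) := by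
      rw [hK, hβ]; ring
    rw [h7]
    have h8 := mul_le_mul_of_nonneg_left u7 (by positivity : 0 ≤ 4 * C0 * L * M6)
    have h9 := mul_le_mul_of_nonneg_left u8 (by positivity : 0 ≤ 4 * C0 * M7)
    refine (add_le_add h8 h9).trans ?_
    have e8 : 4 * C0 * L * M6 * (4096 / c ^ 7 / α ^ 5) + 4 * C0 * M7 * (16384 / c ^ 8 / α ^ 5) =
        (4 * C0 * (L * M6 * (4096 / c ^ 7) + M7 * (16384 / c ^ 8))) / α ^ 5 := by ring
    rw [e8]
    apply div_le_div_of_nonneg_right _ (by positivity)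
    linarith

end

end Pool.Agent.E8helper38.LC
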